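import Pool.Agent.N718.GC.Stm2

/-!
# Project GC (helper718), part MAINWG: weak approximation for almost all families
-/

set_option autoImplicit false

namespace Pool.Agent.N559.GC

open Finset Pool.Agent.N718.DC Pool.Agent.N718.GC

/-! ### Scaling and casts -/

theorem fmv_smul {K : Type} [Field K] {e : ℕ} (c : Fin (e + 2) → ℤ) (l x y : K) :
    fmv c (l * x) (l * y) = l ^ (e + 1) * fmv c x y := by
  unfold fmv fm
  rw [Finset.mul_sum]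
  refine Finset.sum_congr rfl fun j _ => ?_
  have hj : (j : ℕ) ≤ e + 1 := by have := j.2; omega
  rw [mul_pow, mul_pow]
  calc (c j : K) * (l ^ (e + 1 - (j : ℕ)) * x ^ (e + 1 - (j : ℕ))) * (l ^ (j : ℕ) * y ^ (j : ℕ)) =
      (l ^ (e + 1 - (j : ℕ)) * l ^ (j : ℕ)) * ((c j : K) * x ^ (e + 1 - (j : ℕ)) * y ^ (j : ℕ)) := by
        ring
    _ = _ := by rw [← pow_add, Nat.sub_add_cancel hj]

variable {r m : ℕ} {E : Dat r m} {e : Fin m → ℕ} {c : (i : Fin m) → Fin (e i + 2) → ℤ}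

theorem rhs_smul (hE : E.Ok e) {K : Type} [Field K] (j : Fin r) (l x y : K) :
    ∃ z : K, rhs E c j (l * x) (l * y) = rhs E c j x y * z ^ 2 := by
  obtain ⟨k, hk⟩ := hE.ev j
  refine ⟨l ^ k, ?_⟩
  unfold rhs
  have h1 : ∏ i ∈ E.I j, fmv (c i) (l * x) (l * y) = l ^ (k + k) * ∏ i ∈ E.I j, fmv (c i) x y := by
    rw [← hk, ← Finset.prod_pow_eq_pow_sum, ← Finset.prod_mul_distrib]
    exact Finset.prod_congr rfl fun i _ => fmv_smul _ _ _ _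
  rw [h1]
  ring

theorem PG_smul (hL : S_LOCN) (hE : E.Ok e) {K : Type} [Field K] {l x y : K} (hl : l ≠ 0)
    (h : PG E c x y) : PG E c (l * x) (l * y) := by
  refine ⟨fun i => ?_, fun j => ?_⟩
  · rw [fmv_smul]
    exact mul_ne_zero (pow_ne_zero _ hl) (h.1 i)
  · obtain ⟨z, hz⟩ := rhs_smul (c := c) hE j l x y
    rw [hz]
    exact hL.2.2.1 K _ _ z (h.2 j)

theorem fmv_cast {K : Type} [Field K] [CharZero K] {e : ℕ} (c : Fin (e + 2) → ℤ) (t : ℚ) :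
    ((fmv c (1 : ℚ) t : ℚ) : K) = fmv c (1 : K) (t : K) := by
  unfold fmv fm
  push_cast
  rfl

theorem rhs_cast {K : Type} [Field K] [CharZero K] (j : Fin r) (t : ℚ) :
    ((rhs E c j (1 : ℚ) t : ℚ) : K) = rhs E c j (1 : K) (t : K) := by
  unfold rhs
  push_cast
  congr 1
  exact Finset.prod_congr rfl fun i _ => fmv_cast _ _

theorem OnA_PG {K : Type} [Field K] {t : K} {y z : Fin r → K} (h : OnA E c t y z) :
    PG E c 1 t := ⟨h.1, fun j => ⟨y j, z j, h.2 j⟩⟩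

theorem a_ne (hE : E.Ok e) (j : Fin r) : E.a j ≠ 0 := by
  intro h
  apply hE.ha {j} (Finset.singleton_nonempty j)
  rw [Finset.prod_singleton, h]
  exact ⟨0, by simp⟩

theorem rhs_ne {K : Type} [Field K] [CharZero K] (hE : E.Ok e) (j : Fin r) {x y : K}
    (h : ∀ i, fmv (c i) x y ≠ 0) : rhs E c j x y ≠ 0 := by
  unfold rhs
  refine mul_ne_zero ?_ (Finset.prod_ne_zero_iff.2 fun i _ => h i)
  exact_mod_cast hE.hb j

/-- a positive lower bound on a finite set -/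
theorem exists_lb {α : Type} (S : Finset α) (f : α → ℝ) (hf : ∀ a ∈ S, 0 < f a) :
    ∃ τ : ℝ, 0 < τ ∧ ∀ a ∈ S, τ ≤ f a := by
  classical
  induction S using Finset.induction_on with
  | empty => exact ⟨1, one_pos, fun a ha => absurd ha (Finset.notMem_empty a)⟩
  | insert a S ha ih =>
    obtain ⟨τ, h1, h2⟩ := ih fun b hb => hf b (Finset.mem_insert_of_mem hb)
    refine ⟨min τ (f a), lt_min h1 (hf a (Finset.mem_insert_self _ _)), fun b hb => ?_⟩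
    rcases Finset.mem_insert.1 hb with h | h
    · rw [h]; exact min_le_right _ _
    · exact (min_le_left _ _).trans (h2 b h)

/-! ### Close base points -/

theorem close {p : ℕ} [Fact p.Prime] {T X Y x y : ℚ_[p]} {m₀ : ℕ} {d : ℝ} (hm₀ : 1 ≤ m₀)
    (hX : 1 / (m₀ : ℝ) ≤ ‖X‖) (hXY : max ‖X‖ ‖Y‖ = 1) (hT : Y = T * X) (hd : d < 1 / (m₀ : ℝ))
    (h1 : ‖X - x‖ ≤ d) (h2 : ‖Y - y‖ ≤ d) : ‖T - y / x‖ ≤ d * (m₀ : ℝ) ^ 2 := by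
  have hm : (0 : ℝ) < m₀ := by
    have : 0 < m₀ := hm₀
    exact_mod_cast this
  have hm1 : 0 < 1 / (m₀ : ℝ) := by positivity
  have hX0 : 0 < ‖X‖ := hm1.trans_le hX
  have hd0 : 0 ≤ d := (norm_nonneg _).trans h1
  have hx : ‖x‖ = ‖X‖ := by
    have h3 : ‖x - X‖ < ‖X‖ := by
      rw [norm_sub_rev]
      exact (h1.trans_lt hd).trans_le hX
    exact Padic.norm_eq_of_norm_sub_lt_right h3
  have hXne : X ≠ 0 := norm_pos_iff.1 hX0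
  have hxne : x ≠ 0 := norm_pos_iff.1 (by rw [hx]; exact hX0)
  have hX1 : ‖X‖ ≤ 1 := by rw [← hXY]; exact le_max_left _ _
  have hY1 : ‖Y‖ ≤ 1 := by rw [← hXY]; exact le_max_right _ _
  have e1 : T - y / x = (Y * (x - X) + X * (Y - y)) / (X * x) := by
    rw [eq_div_iff (mul_ne_zero hXne hxne), hT]
    field_simp
    ring
  have e2 : ‖Y * (x - X) + X * (Y - y)‖ ≤ d := by
    refine (Padic.nonarchimedean _ _).trans (max_le ?_ ?_)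
    · rw [norm_mul, norm_sub_rev]
      calc ‖Y‖ * ‖X - x‖ ≤ 1 * d := mul_le_mul hY1 h1 (norm_nonneg _) zero_le_one
        _ = d := one_mul _
    · rw [norm_mul]
      calc ‖X‖ * ‖Y - y‖ ≤ 1 * d := mul_le_mul hX1 h2 (norm_nonneg _) zero_le_one
        _ = d := one_mul _
  rw [e1, norm_div, norm_mul, hx, div_le_iff₀ (by positivity)]
  have e3 : 1 ≤ (m₀ : ℝ) ^ 2 * (‖X‖ * ‖X‖) := by
    have e4 : 1 ≤ (m₀ : ℝ) * ‖X‖ := by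
      rw [div_le_iff₀ hm] at hX
      linarith
    nlinarith
  calc ‖Y * (x - X) + X * (Y - y)‖ ≤ d := e2
    _ = d * 1 := (mul_one d).symm
    _ ≤ d * ((m₀ : ℝ) ^ 2 * (‖X‖ * ‖X‖)) := mul_le_mul_of_nonneg_left e3 hd0
    _ = _ := by ring

/-! ### The argument for one family -/

theorem det (hL : S_LOCN) (hF : S_WFIB) (hE : E.Ok e) {m₀ : ℕ} (hm₀ : 1 ≤ m₀)
    (S : Finset Nat.Primes) (hS : ∀ p : Nat.Primes, p ∈ S ↔ (p : ℕ) ≤ m₀)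
    (δ : Nat.Primes → ℝ) (hδ : ∀ p ∈ S,
      ∀ (c : (i : Fin m) → Fin (e i + 2) → ℤ) (T t : ℚ_[(p : ℕ)]), ‖T‖ ≤ m₀ →
      (∀ i, 1 / (m₀ : ℝ) ≤ ‖fmv (c i) 1 T‖) → ‖T - t‖ ≤ δ p →
      ∀ Y Z : Fin r → ℚ_[(p : ℕ)], OnA E c T Y Z → ∃ Y' Z' : Fin r → ℚ_[(p : ℕ)], OnA E c t Y' Z' ∧
        ∀ j, Cl (1 / (2 * (m₀ : ℝ))) (Y j) (Z j) (Y' j) (Z' j))
    (δR : ℝ) (hδR : ∀ H : ℕ, 1 ≤ H → ∀ c ∈ BXI e H, ∀ (T t : ℝ), |T| ≤ m₀ →
      (∀ i, (H : ℝ) / (m₀ : ℝ) ≤ |fmv (c i) 1 T|) → |T - t| ≤ δR →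
      ∀ Y Z : Fin r → ℝ, OnA E c T Y Z → ∃ Y' Z' : Fin r → ℝ, OnA E c t Y' Z' ∧
        ∀ j, Cl (1 / (2 * (m₀ : ℝ))) (Y j) (Z j) (Y' j) (Z' j))
    (N : ℕ) (hN : ∀ p ∈ S, (((p : ℕ) : ℝ) ^ N)⁻¹ < 1 / (m₀ : ℝ) ∧
      (((p : ℕ) : ℝ) ^ N)⁻¹ * (m₀ : ℝ) ^ 2 ≤ min (δ p) (1 / (m₀ : ℝ)))
    (U : Set ℝ) (hU : ∀ x ∈ U, ∀ y ∈ U, |x - y| ≤ min δR (1 / (m₀ : ℝ)))
    (H : ℕ) (hH : 1 ≤ H) (hc : c ∈ BXI e H) (hA : ApprG E U S N c)
    (T : (p : Nat.Primes) → ℚ_[(p : ℕ)]) (Y Z : (p : Nat.Primes) → Fin r → ℚ_[(p : ℕ)])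
    (TR : ℝ) (YR ZR : Fin r → ℝ) (hT : ∀ p, OnA E c (T p) (Y p) (Z p)) (hTR : OnA E c TR YR ZR)
    (hTS : ∀ p : Nat.Primes, (p : ℕ) ≤ m₀ → ‖T p‖ ≤ m₀ ∧ ∀ i, 1 / (m₀ : ℝ) ≤ ‖fmv (c i) 1 (T p)‖)
    (hTRS : |TR| ≤ m₀ ∧ ∀ i, (H : ℝ) / (m₀ : ℝ) ≤ |fmv (c i) 1 TR|) (hTU : TR ∈ U) :
    ∃ (t : ℚ) (y z : Fin r → ℚ), OnA E c t y z ∧
      (∀ p : Nat.Primes, (p : ℕ) ≤ m₀ → ‖T p - (t : ℚ_[(p : ℕ)])‖ ≤ 1 / (m₀ : ℝ) ∧
        ∀ j, Cl (1 / (m₀ : ℝ)) (Y p j) (Z p j) (y j : ℚ_[(p : ℕ)]) (z j : ℚ_[(p : ℕ)])) ∧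
      |TR - (t : ℝ)| ≤ 1 / (m₀ : ℝ) ∧ ∀ j, Cl (1 / (m₀ : ℝ)) (YR j) (ZR j) (y j : ℝ) (z j : ℝ) := by
  classical
  have hm : (0 : ℝ) < m₀ := by
    have : 0 < m₀ := hm₀
    exact_mod_cast this
  have hm1 : (1 : ℝ) ≤ m₀ := by exact_mod_cast hm₀
  -- homogeneous coordinates
  have hXY : ∀ p : Nat.Primes, ∃ X Y : ℚ_[(p : ℕ)], p ∈ S → (max ‖X‖ ‖Y‖ = 1 ∧ PG E c X Y ∧
      1 / (m₀ : ℝ) ≤ ‖X‖ ∧ Y = T p * X) := by
    intro p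
    by_cases hp : p ∈ S
    · have hPG : PG E c 1 (T p) := OnA_PG (hT p)
      by_cases h1 : ‖T p‖ ≤ 1
      · refine ⟨1, T p, fun _ => ⟨?_, hPG, ?_, (mul_one _).symm⟩⟩
        · rw [norm_one]; exact max_eq_left h1
        · rw [norm_one, div_le_one hm]; exact hm1
      · rw [not_le] at h1
        have hT0 : T p ≠ 0 := norm_pos_iff.1 (by linarith)
        refine ⟨(T p)⁻¹, 1, fun _ => ⟨?_, ?_, ?_, (mul_inv_cancel₀ hT0).symm⟩⟩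
        · rw [norm_one, norm_inv]
          exact max_eq_right (inv_le_one_of_one_le₀ h1.le)
        · have := PG_smul hL hE (inv_ne_zero hT0) hPG
          rwa [mul_one, inv_mul_cancel₀ hT0] at this
        · rw [norm_inv, one_div]
          exact inv_anti₀ (by linarith) (hTS p ((hS p).1 hp)).1
    · exact ⟨0, 0, fun h => absurd h hp⟩
  choose X₁ Y₁ hXY₁ using hXY
  obtain ⟨x, y, hx0, hyU, hPGq, hclose⟩ := hA X₁ Y₁ fun p hp => ⟨(hXY₁ p hp).1, (hXY₁ p hp).2.1⟩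
  have hxQ : (x : ℚ) ≠ 0 := by exact_mod_cast hx0.ne'
  obtain ⟨t, ht⟩ : ∃ t : ℚ, t = (y : ℚ) / x := ⟨_, rfl⟩
  have hPGt : PG E c (1 : ℚ) t := by
    have := PG_smul hL hE (inv_ne_zero hxQ) hPGq
    rwa [inv_mul_cancel₀ hxQ, inv_mul_eq_div, ← ht] at this
  have htp : ∀ p ∈ S, ‖T p - (t : ℚ_[(p : ℕ)])‖ ≤ min (δ p) (1 / (m₀ : ℝ)) := by
    intro p hp
    obtain ⟨h1, h2, h3, h4⟩ := hXY₁ p hp
    have h5 := close hm₀ h3 h1 h4 (hN p hp).1 (hclose p hp).1 (hclose p hp).2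
    have h6 : (t : ℚ_[(p : ℕ)]) = (y : ℚ_[(p : ℕ)]) / (x : ℚ_[(p : ℕ)]) := by
      rw [ht]; push_cast; rfl
    rw [h6]
    exact h5.trans (hN p hp).2
  have htR : |TR - (t : ℝ)| ≤ min δR (1 / (m₀ : ℝ)) := by
    have h6 : (t : ℝ) = (y : ℝ) / x := by rw [ht]; push_cast; rfl
    rw [h6]
    exact hU TR hTU _ hyU
  -- local points over `t`
  have hlp : ∀ p : Nat.Primes, ∃ Y' Z' : Fin r → ℚ_[(p : ℕ)], p ∈ S →
      (OnA E c (t : ℚ_[(p : ℕ)]) Y' Z' ∧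
        ∀ j, Cl (1 / (2 * (m₀ : ℝ))) (Y p j) (Z p j) (Y' j) (Z' j)) := by
    intro p
    by_cases hp : p ∈ S
    · obtain ⟨Y', Z', h1, h2⟩ := hδ p hp c (T p) t (hTS p ((hS p).1 hp)).1 (hTS p ((hS p).1 hp)).2
        ((htp p hp).trans (min_le_left _ _)) (Y p) (Z p) (hT p)
      exact ⟨Y', Z', fun _ => ⟨h1, h2⟩⟩
    · exact ⟨0, 0, fun h => absurd h hp⟩
  choose Y' Z' hlp using hlp
  obtain ⟨YR', ZR', hR1, hR2⟩ := hδR H hH c hc TR t hTRS.1 hTRS.2 (htR.trans (min_le_left _ _)) YR ZR hTR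
  -- positive sizes
  have hpos : ∀ (K : Type) [NormedField K] [CharZero K] (T : K) (Y Z : Fin r → K), OnA E c T Y Z →
      ∀ j, 0 < max ‖Y j‖ ‖Z j‖ := by
    intro K _ _ T Y Z h j
    by_contra hcon
    rw [not_lt] at hcon
    have h1 : Y j = 0 := norm_le_zero_iff.1 ((le_max_left _ _).trans hcon)
    have h2 : Z j = 0 := norm_le_zero_iff.1 ((le_max_right _ _).trans hcon)
    have h3 := h.2 j
    rw [h1, h2] at h3
    exact rhs_ne hE j h.1 (by rw [← h3]; ring)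
  -- the fibre
  have hfib : ∀ j : Fin r, ∃ y z : ℚ, y ^ 2 - (E.a j : ℚ) * z ^ 2 = rhs E c j (1 : ℚ) t ∧
      (∀ p ∈ S, Cl (1 / (m₀ : ℝ)) (Y p j) (Z p j) (y : ℚ_[(p : ℕ)]) (z : ℚ_[(p : ℕ)])) ∧
      Cl (1 / (m₀ : ℝ)) (YR j) (ZR j) (y : ℝ) (z : ℝ) := by
    intro j
    obtain ⟨τ, hτ0, hτ⟩ := exists_lb S (fun p => 1 / (2 * (m₀ : ℝ)) * max ‖Y p j‖ ‖Z p j‖)
      fun p _ => mul_pos (by positivity) (hpos _ _ _ _ (hT p) j)
    have hτR : 0 < 1 / (2 * (m₀ : ℝ)) * max ‖YR j‖ ‖ZR j‖ :=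
      mul_pos (by positivity) (hpos _ _ _ _ hTR j)
    obtain ⟨y, z, h1, h2, h3, h4⟩ := hF (E.a j) (rhs E c j (1 : ℚ) t) (a_ne hE j) (rhs_ne hE j hPGt.1)
      (hPGt.2 j) S (fun p => Y' p j) (fun p => Z' p j) (YR' j) (ZR' j)
      (fun p hp => by
        rw [rhs_cast]
        exact (hlp p hp).1.2 j)
      (by
        rw [rhs_cast]
        exact hR1.2 j) (min τ (1 / (2 * (m₀ : ℝ)) * max ‖YR j‖ ‖ZR j‖)) (lt_min hτ0 hτR)
    have hsum : ∀ (K : Type) [NormedField K] (a b a' b' s s' : K),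
        Cl (1 / (2 * (m₀ : ℝ))) a b a' b' → ‖a' - s‖ ≤ 1 / (2 * (m₀ : ℝ)) * max ‖a‖ ‖b‖ →
        ‖b' - s'‖ ≤ 1 / (2 * (m₀ : ℝ)) * max ‖a‖ ‖b‖ → Cl (1 / (m₀ : ℝ)) a b s s' := by
      intro K _ a b a' b' s s' hcl h5 h6
      have e1 : 1 / (m₀ : ℝ) * max ‖a‖ ‖b‖ = 1 / (2 * (m₀ : ℝ)) * max ‖a‖ ‖b‖ +
          1 / (2 * (m₀ : ℝ)) * max ‖a‖ ‖b‖ := by field_simp; ring
      refine ⟨?_, ?_⟩
      · rw [e1]
        exact (norm_sub_le_norm_sub_add_norm_sub a a' s).trans (add_le_add hcl.1 h5)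
      · rw [e1]
        exact (norm_sub_le_norm_sub_add_norm_sub b b' s').trans (add_le_add hcl.2 h6)
    refine ⟨y, z, h1, fun p hp => ?_, ?_⟩
    · refine hsum _ _ _ _ _ _ _ ((hlp p hp).2 j) ?_ ?_
      · exact ((h2 p hp).1.trans (min_le_left _ _)).trans (hτ p hp)
      · exact ((h2 p hp).2.trans (min_le_left _ _)).trans (hτ p hp)
    · refine hsum _ _ _ _ _ _ _ (hR2 j) ?_ ?_
      · exact h3.trans (min_le_right _ _)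
      · exact h4.trans (min_le_right _ _)
  choose y' z' f1 f2 f3 using hfib
  refine ⟨t, y', z', ⟨hPGt.1, f1⟩, fun p hp => ⟨?_, fun j => f2 j p ((hS p).2 hp)⟩, ?_, f3⟩
  · exact (htp p ((hS p).2 hp)).trans (min_le_right _ _)
  · exact htR.trans (min_le_right _ _)

/-! ### Counting -/

theorem primes_le (m₀ : ℕ) : ∃ S : Finset Nat.Primes, ∀ p : Nat.Primes, p ∈ S ↔ (p : ℕ) ≤ m₀ := by
  have h : {p : Nat.Primes | (p : ℕ) ≤ m₀}.Finite :=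
    Set.Finite.preimage (Subtype.val_injective.injOn) (Set.finite_Iic m₀)
  refine ⟨h.toFinset, fun p => ?_⟩
  rw [Set.Finite.mem_toFinset]
  rfl

/-- the intervals -/
def Uk (m₀ : ℕ) (L : ℝ) (k : ℕ) : Set ℝ :=
  Set.Ioo (-(m₀ : ℝ) + ((k : ℝ) - 1) * (L / 2)) (-(m₀ : ℝ) + ((k : ℝ) + 1) * (L / 2))

theorem cover (m₀ : ℕ) (L : ℝ) (hL : 0 < L) : ∃ K : ℕ, 0 < K ∧ ∀ T : ℝ, |T| ≤ m₀ →
    ∃ k < K, T ∈ Uk m₀ L k := by
  refine ⟨⌊4 * (m₀ : ℝ) / L⌋₊ + 1, Nat.succ_pos _, fun T hT => ?_⟩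
  have hT' := abs_le.1 hT
  obtain ⟨k, hk⟩ : ∃ k : ℕ, k = ⌊(T + m₀) / (L / 2)⌋₊ := ⟨_, rfl⟩
  have h0 : 0 ≤ (T + m₀) / (L / 2) := div_nonneg (by linarith) (by positivity)
  have h1 : (k : ℝ) ≤ (T + m₀) / (L / 2) := by rw [hk]; exact Nat.floor_le h0
  have h2 : (T + m₀) / (L / 2) < k + 1 := by rw [hk]; exact Nat.lt_floor_add_one _
  rw [le_div_iff₀ (by positivity)] at h1
  rw [div_lt_iff₀ (by positivity)] at h2
  refine ⟨k, ?_, ?_, ?_⟩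
  · apply Nat.lt_succ_of_le
    rw [hk]
    apply Nat.floor_le_floor
    rw [div_le_div_iff₀ (by positivity) hL]
    nlinarith
  · nlinarith
  · linarith

theorem mainwg_ (h1 : S_MAINAG) (h2 : S_LOCN) (h3 : S_WFIB) (h4 : S_WLOCP) (h5 : S_WLOCR) :
    S_MAINWG := by
  classical
  intro r m E e hm hE m₀ η hm₀ hη
  have hm0 : (0 : ℝ) < m₀ := by
    have : 0 < m₀ := hm₀
    exact_mod_cast this
  have hm1 : (1 : ℝ) ≤ m₀ := by exact_mod_cast hm₀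
  obtain ⟨S, hS⟩ := primes_le m₀
  choose δ hδ0 hδ using fun p : Nat.Primes =>
    h4 r m E e hE m₀ hm₀ (p : ℕ) (1 / (2 * (m₀ : ℝ))) (by positivity)
  obtain ⟨δR, hδR0, hδR⟩ := h5 r m E e hE m₀ hm₀ (1 / (2 * (m₀ : ℝ))) (by positivity)
  obtain ⟨τ, hτ0, hτ⟩ := exists_lb S δ fun p _ => hδ0 p
  have hmin : 0 < min τ (1 / (m₀ : ℝ)) := lt_min hτ0 (by positivity)
  obtain ⟨N, hN⟩ := exists_pow_lt_of_lt_one (div_pos hmin (by positivity : (0 : ℝ) < (m₀ : ℝ) ^ 2))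
    (by norm_num : (1 / 2 : ℝ) < 1)
  have hNp : ∀ p ∈ S, (((p : ℕ) : ℝ) ^ N)⁻¹ < 1 / (m₀ : ℝ) ∧
      (((p : ℕ) : ℝ) ^ N)⁻¹ * (m₀ : ℝ) ^ 2 ≤ min (δ p) (1 / (m₀ : ℝ)) := by
    intro p hp
    have hp2 : (2 : ℝ) ≤ ((p : ℕ) : ℝ) := by exact_mod_cast p.2.two_le
    have e1 : (((p : ℕ) : ℝ) ^ N)⁻¹ ≤ (1 / 2) ^ N := by
      rw [one_div, inv_pow]
      exact inv_anti₀ (by positivity) (pow_le_pow_left₀ (by norm_num) hp2 N)
    have e2 : (((p : ℕ) : ℝ) ^ N)⁻¹ * (m₀ : ℝ) ^ 2 < min τ (1 / (m₀ : ℝ)) := by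
      have := e1.trans_lt hN
      rwa [lt_div_iff₀ (by positivity)] at this
    have e3 : (((p : ℕ) : ℝ) ^ N)⁻¹ ≤ (((p : ℕ) : ℝ) ^ N)⁻¹ * (m₀ : ℝ) ^ 2 :=
      le_mul_of_one_le_right (by positivity) (one_le_pow₀ hm1)
    exact ⟨(e3.trans_lt e2).trans_le (min_le_right _ _),
      e2.le.trans (min_le_min_right _ (hτ p hp))⟩
  have hLpos : 0 < min δR (1 / (m₀ : ℝ)) := lt_min hδR0 (by positivity)
  obtain ⟨K, hK0, hK⟩ := cover m₀ _ hLpos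
  have hKR : (0 : ℝ) < K := by exact_mod_cast hK0
  have hU : ∀ k, ∀ x ∈ Uk m₀ (min δR (1 / (m₀ : ℝ))) k, ∀ y ∈ Uk m₀ (min δR (1 / (m₀ : ℝ))) k,
      |x - y| ≤ min δR (1 / (m₀ : ℝ)) := by
    intro k x hx y hy
    obtain ⟨hx1, hx2⟩ := hx
    obtain ⟨hy1, hy2⟩ := hy
    rw [abs_le]
    constructor <;> linarith
  choose f hf using fun k : ℕ => h1 r m E e hm hE (Uk m₀ (min δR (1 / (m₀ : ℝ))) k) isOpen_Ioo S N
    (η / K) (by positivity)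
  refine ⟨1 + ∑ k ∈ range K, f k, fun H hH => ?_⟩
  have hfk : ∀ k ∈ range K, f k ≤ H := by
    intro k hk
    have := Finset.single_le_sum (f := f) (fun i _ => Nat.zero_le _) hk
    omega
  have hsub : (BXI e H).filter (fun c => ¬ WAG E H m₀ c) ⊆ (range K).biUnion fun k =>
      (BXI e H).filter (fun c => LocG E (Uk m₀ (min δR (1 / (m₀ : ℝ))) k) c ∧
        ¬ ApprG E (Uk m₀ (min δR (1 / (m₀ : ℝ))) k) S N c) := by
    intro c hc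
    rw [Finset.mem_filter] at hc
    obtain ⟨hc1, hc2⟩ := hc
    by_contra hcon
    apply hc2
    intro T Y Z TR YR ZR hT hTR hTS hTRS
    obtain ⟨k, hk, hTk⟩ := hK TR hTRS.1
    have hA : ApprG E (Uk m₀ (min δR (1 / (m₀ : ℝ))) k) S N c := by
      by_contra hA
      apply hcon
      rw [Finset.mem_biUnion]
      refine ⟨k, Finset.mem_range.2 hk, ?_⟩
      rw [Finset.mem_filter]
      exact ⟨hc1, ⟨⟨TR, hTk, OnA_PG hTR⟩, fun p => ⟨1, T p, OnA_PG (hT p)⟩⟩, hA⟩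
    exact det h2 h3 hE hm₀ S hS δ (fun p _ => hδ p) δR hδR N hNp _ (hU k) H (by omega) hc1 hA T Y Z
      TR YR ZR hT hTR hTS hTRS hTk
  calc (((BXI e H).filter (fun c => ¬ WAG E H m₀ c)).card : ℝ) ≤
        (((range K).biUnion fun k =>
          (BXI e H).filter (fun c => LocG E (Uk m₀ (min δR (1 / (m₀ : ℝ))) k) c ∧
            ¬ ApprG E (Uk m₀ (min δR (1 / (m₀ : ℝ))) k) S N c)).card : ℝ) := by
        exact_mod_cast Finset.card_le_card hsub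
    _ ≤ ∑ k ∈ range K, (((BXI e H).filter (fun c => LocG E (Uk m₀ (min δR (1 / (m₀ : ℝ))) k) c ∧
            ¬ ApprG E (Uk m₀ (min δR (1 / (m₀ : ℝ))) k) S N c)).card : ℝ) := by
        exact_mod_cast Finset.card_biUnion_le
    _ ≤ ∑ _k ∈ range K, η / K * ((2 * H + 1 : ℕ) : ℝ) ^ ncI e := by
        refine Finset.sum_le_sum fun k hk => ?_
        exact hf k H (hfk k hk)
    _ = η * ((2 * H + 1 : ℕ) : ℝ) ^ ncI e := by
        rw [Finset.sum_const, Finset.card_range, nsmul_eq_mul]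
        field_simp

end Pool.Agent.N559.GC
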